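import Pool.Agent.H.MP_518c18_al.C

namespace Pool.Agent.Results.MP_518c18_al.Soluble

theorem result (G : Type) [Group G] [Finite G] (F : Type) [Field F]
    (V : Type) [AddCommGroup V] [Module F V] (ρ : Representation F G V)
    (hρ : Function.Injective ρ) (hF : Cardinal.mk (Subgroup G) < Cardinal.mk F)
    (hc : ringChar F = 0 ∨ Nat.Coprime (ringChar F) (Nat.card G))
    (H : Subgroup G) (hH : Group.IsSolvable H) :
    ∃ s : Finset G,
      s.card + 2 ≤ 4 * Set.ncard {k : ℕ | ∃ v : V, Set.ncard (Set.range fun g : G => ρ g v) = k} ∧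
        Subgroup.closure (s : Set G) = H :=
  Pool.Agent.H.MP_518c18_al.main ρ hρ hF hc H

end Pool.Agent.Results.MP_518c18_al.Soluble
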